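import Pool.Agent.Q119.Dist.Main

set_option autoImplicit false

/-!
A right distributive centrally essential endomorphism ring of an abelian group is commutative.
-/

namespace Pool.Agent.Results.MP_10193a_al.Commutative

universe u

/-- Every nonzero `a` has nonzero central `x, y` with `a x = y`. -/
def CentrallyEssential (R : Type u) [Ring R] : Prop :=
  ∀ a : R, a ≠ 0 → ∃ x ∈ Subring.center R, ∃ y ∈ Subring.center R, x ≠ 0 ∧ y ≠ 0 ∧ a * x = y

/-- The lattice of right ideals (the submodules of the right module `R`) is distributive. -/
def RightDistributive (R : Type u) [Ring R] : Prop :=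
  ∀ I J K : Submodule Rᵐᵒᵖ R, I ⊓ (J ⊔ K) = (I ⊓ J) ⊔ (I ⊓ K)

/-- The right ideals are totally ordered by inclusion. -/
def RightUniserial (R : Type u) [Ring R] : Prop :=
  ∀ I J : Submodule Rᵐᵒᵖ R, I ≤ J ∨ J ≤ I

theorem distributive_of_uniserial {R : Type u} [Ring R] (h : RightUniserial R) :
    RightDistributive R := by
  intro I J K
  rcases h J K with h1 | h1
  · rw [sup_eq_right.2 h1, sup_eq_right.2 (inf_le_inf_left I h1)]
  · rw [sup_eq_left.2 h1, sup_eq_left.2 (inf_le_inf_left I h1)]

/-- Let `A` be an abelian group whose endomorphism ring is centrally essential. If the endomorphism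
ring is right distributive, or right uniserial, then it is commutative. -/
theorem result (A : Type u) [AddCommGroup A] (h : CentrallyEssential (AddMonoid.End A)) :
    (RightDistributive (AddMonoid.End A) → ∀ f g : AddMonoid.End A, f * g = g * f) ∧
    (RightUniserial (AddMonoid.End A) → ∀ f g : AddMonoid.End A, f * g = g * f) := by
  have key : RightDistributive (AddMonoid.End A) → ∀ f g : AddMonoid.End A, f * g = g * f := by
    intro hd f g
    refine Pool.Agent.Q119.Dist.main ?_ hd f g
    intro a ha
    obtain ⟨x, hx, y, hy, _, hy0, hxy⟩ := h a ha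
    exact ⟨x, y, Subring.mem_center_iff.1 hx, Subring.mem_center_iff.1 hy, hy0, hxy⟩
  exact ⟨key, fun hu => key (distributive_of_uniserial hu)⟩

end Pool.Agent.Results.MP_10193a_al.Commutative
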